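import Mathlib
import Pool.Agent.Helper414.CuspStmt
import Pool.Agent.Helper414.CuspBasic

/-!
# MP_3abc29_an: the spectrum of a Toeplitz operator with rational symbol need not be a spectral set

The symbol `F(z) = z + 1/(10 z)` maps the circle injectively onto an ellipse.  For the polynomial
`p(x) = 1.0305 x - 0.105 x³ + 0.01 x⁵` one has `|p| ≤ 1.0144` on `σ(T_F)` but
`‖p(T_F)‖² ≥ ‖p(T_F) 1‖² = 1.030401`.
-/

set_option autoImplicit false

open MeasureTheory Set Metric Polynomial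
open scoped ENNReal InnerProductSpace ComplexConjugate
open Pool.Agent.Helper414
open Pool.Agent.Helper414.CuspStmt (H2 toeplitz L2 incl proj hardy)

namespace Pool.Agent.Results.MP_3abc29_an.NotSpectral

/-- `X` is a spectral set for `T` (von Neumann): `X` is closed, contains the spectrum, and
`‖r(T)‖ ≤ sup_X |r|` for every rational function `r = P / Q` without poles in `X`. -/
def IsSpectralSet {E : Type*} [NormedAddCommGroup E] [NormedSpace ℂ E]
    (X : Set ℂ) (T : E →L[ℂ] E) : Prop :=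
  IsClosed X ∧ spectrum ℂ T ⊆ X ∧ ∀ P Q : Polynomial ℂ, (∀ z ∈ X, Q.eval z ≠ 0) →
    ∀ M : ℝ, (∀ z ∈ X, ‖P.eval z / Q.eval z‖ ≤ M) →
      ‖Polynomial.aeval T P * Ring.inverse (Polynomial.aeval T Q)‖ ≤ M

/-! ## Abstract part -/

section abs

variable {E : Type*} [NormedAddCommGroup E] [NormedSpace ℂ E] [CompleteSpace E]

lemma unit_one_sub (A : E →L[ℂ] E) (hA : ‖A‖ < 1) : IsUnit (1 - A) :=
  isUnit_one_sub_of_norm_lt_one hA

lemma spec_mem (S B : E →L[ℂ] E) (hBS : B * S = 1) (hS : ‖S‖ ≤ 1) (hB : ‖B‖ ≤ 1) {l : ℂ}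
    (hl : l ∈ spectrum ℂ (S + ((1 : ℂ) / 10) • B)) :
    ∃ w : ℂ, 1 / 10 ≤ ‖w‖ ∧ ‖w‖ ≤ 1 ∧ l = w + (1 / 10) / w := by
  obtain ⟨z, hz⟩ : ∃ z : ℂ, z ^ 2 - l * z + 1 / 10 = 0 := by
    obtain ⟨s, hs⟩ := IsAlgClosed.exists_pow_nat_eq (l ^ 2 - 4 / 10) (n := 2) (by norm_num)
    refine ⟨(l + s) / 2, ?_⟩
    linear_combination (1 / 4 : ℂ) * hs
  have hz0 : z ≠ 0 := by
    intro h
    rw [h] at hz
    norm_num at hz
  have hsum : l = z + (1 / 10) / z := by
    field_simp
    field_simp at hz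
    linear_combination (-1 : ℂ) * hz
  -- the factorisation
  have key : ∀ z1 z2 : ℂ, z1 * z2 = 1 / 10 → z1 + z2 = l → ‖z2‖ ≤ 1 := by
    intro z1 z2 hp hs
    by_contra hcon
    push Not at hcon
    have hz2 : z2 ≠ 0 := by
      intro h
      rw [h, norm_zero] at hcon
      linarith
    have h1 : ‖z1‖ < 1 := by
      have h3 : ‖z1‖ * ‖z2‖ = 1 / 10 := by
        rw [← norm_mul, hp]
        norm_num
      have h4 := norm_nonneg z1
      nlinarith
    have hu1 : IsUnit (1 - z1 • B) := by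
      apply unit_one_sub
      rw [norm_smul]
      have h4 := norm_nonneg z1
      nlinarith [norm_nonneg B]
    have hu2 : IsUnit (1 - z2⁻¹ • S) := by
      apply unit_one_sub
      rw [norm_smul, norm_inv]
      have h4 : ‖z2‖⁻¹ < 1 := inv_lt_one_of_one_lt₀ hcon
      have h5 : 0 ≤ ‖z2‖⁻¹ := by positivity
      nlinarith [norm_nonneg S]
    have hfac : algebraMap ℂ (E →L[ℂ] E) l - (S + ((1 : ℂ) / 10) • B) =
        (1 - z1 • B) * (z2 • (1 - z2⁻¹ • S)) := by
      have e1 : z2 • (1 - z2⁻¹ • S) = z2 • (1 : E →L[ℂ] E) - S := by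
        rw [smul_sub, smul_smul, mul_inv_cancel₀ hz2, one_smul]
      have e2 : (1 - z1 • B) * (z2 • (1 : E →L[ℂ] E) - S) =
          z2 • (1 : E →L[ℂ] E) - S - (z1 * z2) • B + z1 • (B * S) := by
        simp only [sub_mul, mul_sub, one_mul, smul_mul_assoc, mul_smul_comm, mul_one, smul_sub,
          smul_smul]
        module
      rw [e1, e2, hBS, Algebra.algebraMap_eq_smul_one, ← hs, hp]
      module
    have hu3 : IsUnit (z2 • (1 - z2⁻¹ • S)) := by
      have := hu2.smul (Units.mk0 z2 hz2)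
      simpa [Units.smul_def] using this
    rw [spectrum.mem_iff] at hl
    apply hl
    rw [hfac]
    exact hu1.mul hu3
  have hzz : z * ((1 / 10) / z) = 1 / 10 := by field_simp
  have h1 := key ((1 / 10) / z) z (by rw [mul_comm]; exact hzz) (by rw [hsum]; ring)
  have h2 := key z ((1 / 10) / z) hzz hsum.symm
  refine ⟨z, ?_, h1, hsum⟩
  rw [norm_div, div_le_one (norm_pos_iff.2 hz0)] at h2
  have : ‖(1 / 10 : ℂ)‖ = 1 / 10 := by norm_num
  rw [this] at h2
  exact h2

/-- The polynomial. -/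
noncomputable def pp : Polynomial ℂ :=
  C (10305 / 10000) * X - C (105 / 1000) * X ^ 3 + C (1 / 100) * X ^ 5

lemma pp_eval (z : ℂ) : pp.eval z = 10305 / 10000 * z - 105 / 1000 * z ^ 3 + 1 / 100 * z ^ 5 := by
  simp [pp]

omit [CompleteSpace E] in
lemma pp_apply (S B : E →L[ℂ] E) (hBS : B * S = 1) (e : E) (he : B e = 0) :
    (Polynomial.aeval (S + ((1 : ℂ) / 10) • B) pp) e =
      (101 / 100 : ℂ) • S e - (101 / 1000 : ℂ) • S (S (S e)) +
        (1 / 100 : ℂ) • S (S (S (S (S e)))) := by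
  have hBS' : ∀ x : E, B (S x) = x := by
    intro x
    have := congrArg (fun A : E →L[ℂ] E => A x) hBS
    simpa using this
  have h : Polynomial.aeval (S + ((1 : ℂ) / 10) • B) pp =
      (10305 / 10000 : ℂ) • (S + ((1 : ℂ) / 10) • B) -
        (105 / 1000 : ℂ) • (S + ((1 : ℂ) / 10) • B) ^ 3 +
        (1 / 100 : ℂ) • (S + ((1 : ℂ) / 10) • B) ^ 5 := by
    simp only [pp, map_add, map_sub, map_mul, aeval_C, map_pow, aeval_X, Algebra.smul_def]
  rw [h]
  set T := S + ((1 : ℂ) / 10) • B with hT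
  have hTa : ∀ x : E, T x = S x + ((1 : ℂ) / 10) • B x := fun x => by simp [hT]
  have h3 : (T ^ 3) e = T (T (T e)) := by
    simp [pow_succ]
  have h5 : (T ^ 5) e = T (T (T (T (T e)))) := by
    simp [pow_succ]
  simp only [add_apply, sub_apply,
    smul_apply, h3, h5]
  simp only [hTa, map_add, map_smul, hBS', he, smul_zero, add_zero]
  module

end abs

/-! ## The bound of the polynomial on the filled ellipse -/

/-- The Laurent polynomial `pp (w + 1/(10 w))`. -/
noncomputable def qq (w : ℂ) : ℂ := pp.eval (w + (1 / 10) / w)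

lemma qq_symm {w : ℂ} (hw : w ≠ 0) : qq ((1 / 10) / w) = qq w := by
  unfold qq
  congr 1
  field_simp
  ring

lemma qq_circle {w : ℂ} (hw : ‖w‖ = 1) : ‖qq w‖ ≤ 10144 / 10000 := by
  have hw0 : w ≠ 0 := by
    intro h
    rw [h, norm_zero] at hw
    exact zero_ne_one hw
  obtain ⟨c, hc⟩ : ∃ c : ℂ, c = conj w := ⟨_, rfl⟩
  have hwc : w * c = 1 := by
    rw [hc, Complex.mul_conj, Complex.normSq_eq_norm_sq, hw]
    norm_num
  have hc1 : ‖c‖ = 1 := by rw [hc, RCLike.norm_conj, hw]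
  have hinv : (1 / 10 : ℂ) / w = (1 / 10) * c := by
    rw [div_eq_iff hw0]
    linear_combination (-(1 / 10) : ℂ) * hwc
  have hq : qq w = w * (1 + (1 / 10) * (c ^ 2 - w ^ 2) + (1 / 100) * w ^ 4) +
      (-(1 / 10000) * c ^ 3 + (1 / 10000000) * c ^ 5) := by
    unfold qq
    rw [pp_eval, hinv]
    linear_combination ((-2061/20000) * c + (1/200000) * c^3 + (-61/2000) * w +
      (1/10000) * w * c^2 + (1/1000) * w^2 * c + (1/200) * w^3 : ℂ) * hwc
  obtain ⟨s, hs⟩ : ∃ s : ℂ, s = w ^ 2 := ⟨_, rfl⟩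
  have hcs : c ^ 2 = conj s := by rw [hs, hc, map_pow]
  have hab : s.re * s.re + s.im * s.im = 1 := by
    rw [← Complex.normSq_apply, hs, map_pow, Complex.normSq_eq_norm_sq, hw]
    norm_num
  have hX : ‖(1 + (1 / 10) * (c ^ 2 - w ^ 2) + (1 / 100) * w ^ 4 : ℂ)‖ ≤ 10142 / 10000 := by
    have e1 : (1 + (1 / 10) * (c ^ 2 - w ^ 2) + (1 / 100) * w ^ 4 : ℂ) =
        ⟨1 + (s.re * s.re - s.im * s.im) / 100, -s.im / 5 + s.re * s.im / 50⟩ := by
      have e2 : w ^ 4 = s * s := by rw [hs]; ring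
      rw [e2, hcs, ← hs]
      apply Complex.ext
      · simp
        ring
      · simp
        ring
    rw [e1]
    refine abs_le_of_sq_le_sq' ?_ (by norm_num) |>.2
    rw [Complex.sq_norm, Complex.normSq_mk]
    have h4 : s.re * s.re = 1 - s.im * s.im := by linarith
    have h5 : -1 ≤ s.re := by nlinarith
    have h6 : s.im * s.im ≤ 1 := by nlinarith
    have h7 : (1 + (s.re * s.re - s.im * s.im) / 100) * (1 + (s.re * s.re - s.im * s.im) / 100) +
        (-s.im / 5 + s.re * s.im / 50) * (-s.im / 5 + s.re * s.im / 50) =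
        10201 / 10000 - (8 / 1000) * (s.re * (s.im * s.im)) := by
      have h8 : (-s.im / 5 + s.re * s.im / 50) * (-s.im / 5 + s.re * s.im / 50) =
        s.im * s.im / 25 - 2 * s.re * (s.im * s.im) / 250 + (s.re * s.re) * (s.im * s.im) / 2500 := by
        ring
      rw [h8, h4]
      ring
    rw [h7]
    nlinarith [mul_self_nonneg s.im]
  rw [hq]
  refine (norm_add_le _ _).trans ?_
  have h9 : ‖w * (1 + (1 / 10) * (c ^ 2 - w ^ 2) + (1 / 100) * w ^ 4)‖ ≤ 10142 / 10000 := by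
    rw [norm_mul, hw, one_mul]
    exact hX
  have h10 : ‖(-(1 / 10000) * c ^ 3 + (1 / 10000000) * c ^ 5 : ℂ)‖ ≤ 2 / 10000 := by
    refine (norm_add_le _ _).trans ?_
    rw [norm_mul, norm_mul, norm_pow, norm_pow, hc1]
    norm_num
  linarith

lemma qq_bound {w : ℂ} (h1 : 1 / 10 ≤ ‖w‖) (h2 : ‖w‖ ≤ 1) : ‖qq w‖ ≤ 10144 / 10000 := by
  have hlow : ∀ z : ℂ, ‖z‖ = 1 / 10 → ‖qq z‖ ≤ 10144 / 10000 := by
    intro z hz
    have hz0 : z ≠ 0 := by
      intro h
      rw [h, norm_zero] at hz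
      norm_num at hz
    rw [← qq_symm hz0]
    apply qq_circle
    rw [norm_div, hz]
    norm_num
  obtain ⟨U, hU⟩ : ∃ U : Set ℂ, U = {z : ℂ | 1 / 10 < ‖z‖ ∧ ‖z‖ < 1} := ⟨_, rfl⟩
  have hUo : IsOpen U := by
    rw [hU]
    exact (isOpen_lt continuous_const continuous_norm).inter
      (isOpen_lt continuous_norm continuous_const)
  have hcl : closure U ⊆ {z : ℂ | 1 / 10 ≤ ‖z‖ ∧ ‖z‖ ≤ 1} := by
    apply closure_minimal
    · rw [hU]
      rintro z ⟨h3, h4⟩
      exact ⟨h3.le, h4.le⟩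
    · exact (isClosed_le continuous_const continuous_norm).inter
        (isClosed_le continuous_norm continuous_const)
  have hfr : ∀ z ∈ frontier U, ‖qq z‖ ≤ 10144 / 10000 := by
    intro z hz
    rw [hUo.frontier_eq] at hz
    have h3 := hcl hz.1
    have h4 := hz.2
    rcases h3.1.eq_or_lt with h5 | h5
    · exact hlow z h5.symm
    · rcases h3.2.eq_or_lt with h6 | h6
      · exact qq_circle h6
      · exact absurd (by rw [hU]; exact ⟨h5, h6⟩) h4
  have hb : Bornology.IsBounded U := by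
    apply (isBounded_ball (x := (0 : ℂ)) (r := 1)).subset
    rw [hU]
    rintro z ⟨_, h4⟩
    simpa using h4
  have hd : DiffContOnCl ℂ qq U := by
    apply DifferentiableOn.diffContOnCl
    intro z hz
    have h3 := hcl hz
    have hz0 : z ≠ 0 := by
      intro h
      have h4 := h3.1
      rw [h, norm_zero] at h4
      norm_num at h4
    apply DifferentiableAt.differentiableWithinAt
    unfold qq
    have h5 : DifferentiableAt ℂ (fun w : ℂ => w + (1 / 10) / w) z := by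
      fun_prop (disch := assumption)
    exact (pp.differentiable.differentiableAt).comp z h5
  rcases h1.eq_or_lt with h5 | h5
  · exact hlow w h5.symm
  · rcases h2.eq_or_lt with h6 | h6
    · exact qq_circle h6
    · have h7 : w ∈ closure U := subset_closure (by rw [hU]; exact ⟨h5, h6⟩)
      exact Complex.norm_le_of_forall_mem_frontier_norm_le hb hd hfr h7

/-! ## Toeplitz operators -/

instance : CompleteSpace H2 := (inferInstance : CompleteSpace CuspStmt.hardy)

/-- The identification of the two copies of the Hardy space. -/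
def toH (v : Cusp.hardy) : H2 := v

lemma toH_surj (v : H2) : ∃ u : Cusp.hardy, toH u = v := ⟨v, rfl⟩

lemma toH_norm (v : Cusp.hardy) : ‖toH v‖ = ‖(v : Lp ℂ 2 Cusp.mT)‖ := rfl

lemma toH_add (v w : Cusp.hardy) : toH (v + w) = toH v + toH w := rfl

lemma toH_sub (v w : Cusp.hardy) : toH (v - w) = toH v - toH w := rfl

lemma toH_smul (c : ℂ) (v : Cusp.hardy) : toH (c • v) = c • toH v := rfl

lemma toeplitz_eq (g : C(UnitAddCircle, ℂ)) (v : Cusp.hardy) :
    toeplitz g (toH v) = toH (Cusp.toeplitz g v) := by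
  have e2 : CuspStmt.mul CuspStmt.mT g (show L2 CuspStmt.mT from (v : Lp ℂ 2 Cusp.mT)) =
      Cusp.mulOp Cusp.mT g (v : Lp ℂ 2 Cusp.mT) := CuspStmt.mul_eq CuspStmt.mT g _
  have e3 : toeplitz g (toH v) = (show H2 from
      Cusp.hardy.orthogonalProjectionOnto
        (CuspStmt.mul CuspStmt.mT g (show L2 CuspStmt.mT from (v : Lp ℂ 2 Cusp.mT)))) := rfl
  rw [e3, e2]
  rfl

lemma mulOp_mulOp (g h : C(UnitAddCircle, ℂ)) (f : Lp ℂ 2 Cusp.mT) :
    Cusp.mulOp Cusp.mT g (Cusp.mulOp Cusp.mT h f) = Cusp.mulOp Cusp.mT (g * h) f := by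
  apply Lp.ext
  filter_upwards [Cusp.mulOp_ae Cusp.mT g (Cusp.mulOp Cusp.mT h f), Cusp.mulOp_ae Cusp.mT h f,
    Cusp.mulOp_ae Cusp.mT (g * h) f] with x h1 h2 h3
  rw [h1, h2, h3, ContinuousMap.mul_apply, mul_assoc]

lemma mulOp_one (f : Lp ℂ 2 Cusp.mT) : Cusp.mulOp Cusp.mT 1 f = f := by
  apply Lp.ext
  filter_upwards [Cusp.mulOp_ae Cusp.mT 1 f] with x h1
  rw [h1, ContinuousMap.one_apply, one_mul]

lemma mulOp_add (g h : C(UnitAddCircle, ℂ)) (c : ℂ) (f : Lp ℂ 2 Cusp.mT) :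
    Cusp.mulOp Cusp.mT (g + c • h) f = Cusp.mulOp Cusp.mT g f + c • Cusp.mulOp Cusp.mT h f := by
  apply Lp.ext
  filter_upwards [Cusp.mulOp_ae Cusp.mT (g + c • h) f, Cusp.mulOp_ae Cusp.mT g f,
    Cusp.mulOp_ae Cusp.mT h f,
    Lp.coeFn_add (Cusp.mulOp Cusp.mT g f) (c • Cusp.mulOp Cusp.mT h f),
    Lp.coeFn_smul c (Cusp.mulOp Cusp.mT h f)] with x h1 h2 h3 h4 h5
  rw [h1, h4, Pi.add_apply, h5, Pi.smul_apply, h2, h3, ContinuousMap.add_apply,
    ContinuousMap.smul_apply, smul_eq_mul, smul_eq_mul]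
  ring

lemma norm_mulOp_fourier (n : ℤ) (f : Lp ℂ 2 Cusp.mT) :
    ‖Cusp.mulOp Cusp.mT (fourier n) f‖ = ‖f‖ := by
  apply le_antisymm
  · apply Lp.norm_le_norm_of_ae_le
    filter_upwards [Cusp.mulOp_ae Cusp.mT (fourier n) f] with x h1
    rw [h1, norm_mul, Cusp.proj_kernel_norm, one_mul]
  · apply Lp.norm_le_norm_of_ae_le
    filter_upwards [Cusp.mulOp_ae Cusp.mT (fourier n) f] with x h1
    rw [h1, norm_mul, Cusp.proj_kernel_norm, one_mul]

lemma mulOp_fourier_mem (f : Lp ℂ 2 Cusp.mT) (hf : f ∈ Cusp.hardy) :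
    Cusp.mulOp Cusp.mT (fourier 1) f ∈ Cusp.hardy := by
  intro n hn
  have h1 : fourierCoeff (Cusp.mulOp Cusp.mT (fourier 1) f : UnitAddCircle → ℂ) n =
      fourierCoeff (f : UnitAddCircle → ℂ) (n - 1) := by
    unfold fourierCoeff
    apply integral_congr_ae
    filter_upwards [Cusp.mulOp_ae Cusp.mT (fourier 1) f] with x h1
    rw [h1, smul_eq_mul, smul_eq_mul, ← mul_assoc, ← fourier_add]
    congr 3
    ring
  rw [h1]
  exact hf _ (by omega)

lemma toep_one (v : Cusp.hardy) :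
    ((Cusp.toeplitz (fourier 1) v : Cusp.hardy) : Lp ℂ 2 Cusp.mT) =
      Cusp.mulOp Cusp.mT (fourier 1) v := by
  have h1 := Submodule.orthogonalProjectionOnto_mem_subspace_eq_self (K := Cusp.hardy)
    ⟨Cusp.mulOp Cusp.mT (fourier 1) v, mulOp_fourier_mem v v.2⟩
  exact congrArg Subtype.val h1

lemma toep_neg_one (v : Cusp.hardy) :
    Cusp.toeplitz (fourier (-1)) (Cusp.toeplitz (fourier 1) v) = v := by
  have h2 : Cusp.toeplitz (fourier (-1)) (Cusp.toeplitz (fourier 1) v) =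
      Cusp.hardy.orthogonalProjectionOnto (Cusp.mulOp Cusp.mT (fourier (-1))
        ((Cusp.toeplitz (fourier 1) v : Cusp.hardy) : Lp ℂ 2 Cusp.mT)) := rfl
  have h3 : (fourier (-1) * fourier 1 : C(UnitAddCircle, ℂ)) = 1 := by
    ext t
    rw [ContinuousMap.mul_apply, ← fourier_add]
    simp
  rw [h2, toep_one, mulOp_mulOp, h3, mulOp_one]
  exact Submodule.orthogonalProjectionOnto_mem_subspace_eq_self v

lemma norm_toep (n : ℤ) (v : Cusp.hardy) : ‖Cusp.toeplitz (fourier n) v‖ ≤ ‖v‖ := by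
  have h2 : Cusp.toeplitz (fourier n) v =
      Cusp.hardy.orthogonalProjectionOnto (Cusp.mulOp Cusp.mT (fourier n) v) := rfl
  rw [h2]
  refine (Submodule.norm_orthogonalProjectionOnto_apply_le _ _).trans ?_
  rw [norm_mulOp_fourier]
  rfl

/-! ## The example -/

/-- The symbol `z + 1/(10 z)`. -/
noncomputable def FF : C(UnitAddCircle, ℂ) := fourier 1 + ((1 : ℂ) / 10) • fourier (-1)

lemma FF_apply (t : UnitAddCircle) : FF t = fourier 1 t + (1 / 10) * (fourier 1 t)⁻¹ := by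
  have h : (fourier (-1) t : ℂ) = (fourier 1 t)⁻¹ := by
    rw [fourier_neg, Complex.inv_def, Complex.normSq_eq_norm_sq, Cusp.proj_kernel_norm]
    simp
  simp only [FF, ContinuousMap.add_apply, ContinuousMap.smul_apply, smul_eq_mul, h]

lemma fourier_ne (t : UnitAddCircle) : (fourier 1 t : ℂ) ≠ 0 := by
  intro h
  have := Cusp.proj_kernel_norm (t := t) (n := 1)
  rw [h, norm_zero] at this
  exact zero_ne_one this

lemma FF_rational : Cusp.RationalSymbol FF := by
  refine ⟨C 10 * X ^ 2 + 1, C 10 * X, ?_, ?_⟩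
  · intro z hz h
    simp at h
    rw [h, norm_zero] at hz
    exact zero_ne_one hz
  · intro t
    have h := fourier_ne t
    rw [FF_apply]
    simp only [eval_add, eval_mul, eval_C, eval_pow, eval_X, eval_one]
    field_simp

lemma FF_curve : Cusp.SimpleClosedCurve (range FF) := by
  refine ⟨fun z => (z : ℂ) + (1 / 10) * (z : ℂ)⁻¹, ?_, ?_, ?_⟩
  · exact continuous_subtype_val.add (continuous_const.mul
      (continuous_subtype_val.inv₀ fun z => Circle.coe_ne_zero z))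
  · intro z w h
    simp only at h
    have hz := Circle.coe_ne_zero z
    have hw := Circle.coe_ne_zero w
    apply Circle.ext
    have h1 : ((z : ℂ) - w) * ((z : ℂ) * w - 1 / 10) = 0 := by
      field_simp at h
      linear_combination (1 / 10 : ℂ) * h
    rcases mul_eq_zero.1 h1 with h2 | h2
    · exact sub_eq_zero.1 h2
    · exfalso
      have h3 : (z : ℂ) * w = 1 / 10 := sub_eq_zero.1 h2
      have h4 : ‖(z : ℂ) * w‖ = 1 := by
        rw [norm_mul, Circle.norm_coe, Circle.norm_coe, one_mul]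
      rw [h3] at h4
      norm_num at h4
  · ext x
    constructor
    · rintro ⟨z, rfl⟩
      obtain ⟨t, ht⟩ := (AddCircle.homeomorphCircle (T := (1 : ℝ)) one_ne_zero).surjective z
      refine ⟨t, ?_⟩
      have h1 : (fourier 1 t : ℂ) = z := by
        rw [← ht, fourier_one]
        simp [AddCircle.homeomorphCircle_apply]
      rw [FF_apply, h1]
    · rintro ⟨t, rfl⟩
      refine ⟨AddCircle.toCircle t, ?_⟩
      rw [FF_apply, fourier_one]

/-- The constant function one, as an element of the Hardy space. -/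
noncomputable def e0 : Cusp.hardy := ⟨Cusp.vec (fourier 0), by
  apply Cusp.vec_mem_hardy
  intro n hn
  refine Cusp.coeff_ana (q := fun _ => 1) diffContOnCl_const (fun t => ?_) hn
  simp⟩

lemma B_e0 : Cusp.toeplitz (fourier (-1)) e0 = 0 := by
  unfold e0
  rw [Cusp.toeplitz_vec]
  apply Submodule.orthogonalProjectionOnto_eq_zero_iff.2
  apply Cusp.vec_mem_perp
  intro n hn
  refine Cusp.coeff_coana (q := fun _ => 1) diffContOnCl_const (fun t => ?_) hn
  simp

lemma S_four (n : ℤ) (v : Cusp.hardy) (h : (v : Lp ℂ 2 Cusp.mT) = fourierLp 2 n) :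
    (Cusp.toeplitz (fourier 1) v : Lp ℂ 2 Cusp.mT) = fourierLp 2 (n + 1) := by
  rw [toep_one, h]
  change Cusp.mulOp Cusp.mT (fourier 1) (Cusp.vec (fourier n)) = Cusp.vec _
  rw [Cusp.mulOp_vec]
  congr 1
  ext t
  rw [ContinuousMap.mul_apply, ← fourier_add, add_comm]

lemma norm_comb (a b c : ℂ) : ‖a • (fourierLp 2 1 : Lp ℂ 2 Cusp.mT) - b • fourierLp 2 3 +
    c • fourierLp 2 5‖ ^ 2 = ‖a‖ ^ 2 + ‖b‖ ^ 2 + ‖c‖ ^ 2 := by
  have ho := orthonormal_fourier (T := 1)
  have hn : ∀ n : ℤ, ‖(fourierLp 2 n : Lp ℂ 2 Cusp.mT)‖ = 1 := fun n => ho.1 n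
  have hi : ∀ m n : ℤ, m ≠ n →
      ⟪(fourierLp 2 m : Lp ℂ 2 Cusp.mT), fourierLp 2 n⟫_ℂ = 0 := fun m n h => ho.2 h
  have h1 : ⟪a • (fourierLp 2 1 : Lp ℂ 2 Cusp.mT) - b • fourierLp 2 3,
      c • (fourierLp 2 5 : Lp ℂ 2 Cusp.mT)⟫_ℂ = 0 := by
    rw [inner_sub_left, inner_smul_left, inner_smul_left, inner_smul_right, inner_smul_right,
      hi 1 5 (by norm_num), hi 3 5 (by norm_num)]
    simp
  have h2 : ⟪a • (fourierLp 2 1 : Lp ℂ 2 Cusp.mT),
      -(b • (fourierLp 2 3 : Lp ℂ 2 Cusp.mT))⟫_ℂ = 0 := by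
    rw [inner_neg_right, inner_smul_left, inner_smul_right, hi 1 3 (by norm_num)]
    simp
  have h3 := norm_add_sq_eq_norm_sq_add_norm_sq_of_inner_eq_zero _ _ h1
  have h4 := norm_add_sq_eq_norm_sq_add_norm_sq_of_inner_eq_zero _ _ h2
  rw [← sub_eq_add_neg] at h4
  rw [norm_neg, norm_smul, norm_smul, hn, hn] at h4
  rw [h4, norm_smul, hn] at h3
  rw [sq, h3]
  ring

/-- **The spectrum of a Toeplitz operator with rational symbol, injective on the circle, need not
be a spectral set.** -/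
theorem result : ∃ F : C(UnitAddCircle, ℂ), Cusp.RationalSymbol F ∧
    Cusp.SimpleClosedCurve (range F) ∧ ¬ IsSpectralSet (spectrum ℂ (toeplitz F)) (toeplitz F) := by
  refine ⟨FF, FF_rational, FF_curve, ?_⟩
  rintro ⟨-, -, h⟩
  obtain ⟨S, hS⟩ : ∃ S : H2 →L[ℂ] H2, S = toeplitz (fourier 1) := ⟨_, rfl⟩
  obtain ⟨B, hB⟩ : ∃ B : H2 →L[ℂ] H2, B = toeplitz (fourier (-1)) := ⟨_, rfl⟩
  have hSa : ∀ v : Cusp.hardy, S (toH v) = toH (Cusp.toeplitz (fourier 1) v) := by
    intro v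
    rw [hS]
    exact toeplitz_eq _ v
  have hBa : ∀ v : Cusp.hardy, B (toH v) = toH (Cusp.toeplitz (fourier (-1)) v) := by
    intro v
    rw [hB]
    exact toeplitz_eq _ v
  have hBS : B * S = 1 := by
    ext v
    obtain ⟨u, rfl⟩ := toH_surj v
    change B (S (toH u)) = toH u
    rw [hSa, hBa, toep_neg_one]
  have hSn : ‖S‖ ≤ 1 := by
    apply ContinuousLinearMap.opNorm_le_bound _ zero_le_one
    intro v
    obtain ⟨u, rfl⟩ := toH_surj v
    rw [one_mul, hSa]
    exact norm_toep 1 u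
  have hBn : ‖B‖ ≤ 1 := by
    apply ContinuousLinearMap.opNorm_le_bound _ zero_le_one
    intro v
    obtain ⟨u, rfl⟩ := toH_surj v
    rw [one_mul, hBa]
    exact norm_toep (-1) u
  have hT : toeplitz FF = S + ((1 : ℂ) / 10) • B := by
    ext v
    obtain ⟨u, rfl⟩ := toH_surj v
    rw [toeplitz_eq, add_apply, smul_apply, hSa, hBa, ← toH_smul, ← toH_add]
    congr 1
    change Cusp.hardy.orthogonalProjectionOnto (Cusp.mulOp Cusp.mT FF u) =
      Cusp.hardy.orthogonalProjectionOnto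
        (Cusp.mulOp Cusp.mT (fourier 1) u) + ((1 : ℂ) / 10) •
        Cusp.hardy.orthogonalProjectionOnto
        (Cusp.mulOp Cusp.mT (fourier (-1)) u)
    rw [← map_smul, ← map_add, ← mulOp_add]
    rfl
  rw [hT] at h
  have h1 := h pp 1 (fun z _ => by simp) (10144 / 10000) (by
    intro z hz
    obtain ⟨w, hw1, hw2, rfl⟩ := spec_mem S B hBS hSn hBn hz
    have := qq_bound hw1 hw2
    simpa [qq] using this)
  rw [map_one, Ring.inverse_one, mul_one] at h1
  have h2 := (Polynomial.aeval (S + ((1 : ℂ) / 10) • B) pp).le_of_opNorm_le h1 (toH e0)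
  have hBe : B (toH e0) = 0 := by
    rw [hBa, B_e0]
    rfl
  rw [pp_apply S B hBS _ hBe] at h2
  have he : ‖toH e0‖ = 1 := by
    rw [toH_norm]
    exact (orthonormal_fourier (T := 1)).1 0
  have f0 : (e0 : Lp ℂ 2 Cusp.mT) = fourierLp 2 0 := rfl
  have f1 := S_four _ _ f0
  have f2 := S_four _ _ f1
  have f3 := S_four _ _ f2
  have f4 := S_four _ _ f3
  have f5 := S_four _ _ f4
  norm_num at f1 f3 f5
  rw [he, mul_one] at h2
  simp only [hSa, ← toH_smul, ← toH_add, ← toH_sub, toH_norm, Submodule.coe_add,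
    Submodule.coe_sub, Submodule.coe_smul, f1, f3, f5] at h2
  have h4 := norm_comb (101 / 100) (101 / 1000) (1 / 100)
  have h5 := pow_le_pow_left₀ (norm_nonneg _) h2 2
  rw [h4] at h5
  norm_num at h5

end Pool.Agent.Results.MP_3abc29_an.NotSpectral
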